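import Mathlib

set_option autoImplicit false
open Set MeasureTheory Metric

namespace Pool.Agent.Results.MP_ce4856_an.No

/-- Membership in the Bergman space with exponent `p`. -/
def Berg (p : ℝ) (f : ℂ → ℂ) : Prop :=
  DifferentiableOn ℂ f (ball 0 1) ∧ IntegrableOn (fun z => ‖f z‖ ^ p) (ball 0 1)

/-- The Bergman (quasi-)norm. -/
noncomputable def nrm (p : ℝ) (f : ℂ → ℂ) : ℝ := (1 / Real.pi * ∫ z in ball (0 : ℂ) 1, ‖f z‖ ^ p) ^ (1 / p)

/-- The Korenblum constant (zero if no `c` has the property). -/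
noncomputable def kap (p : ℝ) : ℝ :=
  sSup {c | c ∈ Ioo (0 : ℝ) 1 ∧ ∀ f g, Berg p f → Berg p g →
    (∀ z : ℂ, c < ‖z‖ → ‖z‖ < 1 → ‖f z‖ ≤ ‖g z‖) → nrm p f ≤ nrm p g}

/-- The extremal function. -/
noncomputable def F (p c : ℝ) : ℝ :=
  sSup {t | ∃ f g, Berg p f ∧ Berg p g ∧ nrm p f ≤ 1 ∧ nrm p g ≤ 1 ∧
    (∀ z : ℂ, c ≤ ‖z‖ → ‖z‖ < 1 → ‖f z‖ ≤ ‖g z‖) ∧ t = nrm p f ^ p - nrm p g ^ p}

lemma n0 (p : ℝ) (f : ℂ → ℂ) : 0 ≤ 1 / Real.pi * ∫ z in ball (0 : ℂ) 1, ‖f z‖ ^ p :=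
  mul_nonneg (by positivity) (integral_nonneg fun _ => by positivity)

lemma kap_lt {p : ℝ} (hp : 0 < p) : kap p < 1 := by
  have c : Continuous fun z : ℂ => ‖z‖ ^ p := continuous_norm.rpow_const fun _ => .inr hp.le
  have i : IntegrableOn (fun z : ℂ => ‖z‖ ^ p) (ball 0 1) :=
    (c.continuousOn.integrableOn_compact (isCompact_closedBall 0 1)).mono_set ball_subset_closedBall
  have i1 : ∀ a : ℝ, IntegrableOn (fun _ : ℂ => a) (ball 0 1) := fun a => integrableOn_const measure_ball_lt_top.ne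
  have v : (volume.real (ball (0 : ℂ) 1)) = Real.pi := by simp [Measure.real]
  have : nrm p id < 1 := Real.rpow_lt_one (n0 _ _) (by
    have := (setIntegral_pos_iff_support_of_nonneg_ae (f := fun z : ℂ => 1 - ‖z‖ ^ p)
      ((ae_restrict_mem measurableSet_ball).mono fun z hz => sub_nonneg.2
        (Real.rpow_le_one (norm_nonneg _) (mem_ball_zero_iff.1 hz).le hp.le)) ((i1 1).sub i)).2
      ((measure_ball_pos volume (0 : ℂ) one_pos).trans_le (measure_mono fun z hz => ⟨(sub_pos.2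
        (Real.rpow_lt_one (norm_nonneg _) (mem_ball_zero_iff.1 hz) hp)).ne', hz⟩))
    rw [integral_sub (i1 1) i, setIntegral_const, v] at this
    rw [one_div, inv_mul_lt_iff₀ Real.pi_pos]; simpa using this) (by positivity)
  obtain ⟨a, h1, h2⟩ := exists_between this
  have a0 : 0 ≤ a := (Real.rpow_nonneg (n0 _ _) _).trans h1.le
  refine (Real.sSup_le (fun c hc => not_lt.1 fun l => ?_) a0).trans_lt h2
  refine h1.not_ge (le_of_eq_of_le ?_ (hc.2 (fun _ => a) id ⟨by fun_prop, i1 _⟩ ⟨by fun_prop, i⟩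
    fun z h _ => by simpa [abs_of_nonneg a0] using (l.trans h).le))
  rw [nrm, setIntegral_const, v, smul_eq_mul, ← mul_assoc, one_div_mul_cancel Real.pi_ne_zero, one_mul, one_div,
    Real.rpow_rpow_inv (norm_nonneg _) hp.ne']
  simp [abs_of_nonneg a0]

theorem result : (∀ p : ℝ, 0 < p → kap p < 1) ∧
    (∀ p : ℝ, 0 < p → ∀ k : ℕ, 1 ≤ k → ∀ c, F (k * p) c ≤ F p c) ∧
    ∃ p₁ p₂ c : ℝ, 0 < p₁ ∧ p₁ < p₂ ∧ max (kap p₁) (kap p₂) < c ∧ c < 1 ∧ F p₂ c ≤ F p₁ c := by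
  have key : ∀ p : ℝ, 0 < p → ∀ k : ℕ, 1 ≤ k → ∀ c, F (k * p) c ≤ F p c := fun p hp k hk c => by
    have k0 : (0 : ℝ) < k := by exact_mod_cast hk
    have e : ∀ f : ℂ → ℂ, (fun z => ‖f z ^ k‖ ^ p) = fun z => ‖f z‖ ^ (k * p) := fun f => by
      ext z; rw [norm_pow, Real.rpow_natCast_mul (norm_nonneg _)]
    have e1 : ∀ {q : ℝ}, 0 < q → ∀ f, nrm q f ^ q = 1 / Real.pi * ∫ z in ball (0 : ℂ) 1, ‖f z‖ ^ q :=
      fun hq f => by rw [nrm, one_div _, one_div _, Real.rpow_inv_rpow (by simpa using n0 _ f) hq.ne']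
    have e2 : ∀ f, nrm p (fun z => f z ^ k) ^ p = nrm (k * p) f ^ (k * p) := fun f => by
      rw [e1 hp, e1 (by positivity), e]
    have e3 : ∀ f, nrm (k * p) f ≤ 1 → nrm p (fun z => f z ^ k) ≤ 1 := fun f h =>
      Real.rpow_le_one (n0 _ _) (by
        rw [← e1 hp, e2]; exact Real.rpow_le_one (Real.rpow_nonneg (n0 _ _) _) h (by positivity)) (by positivity)
    refine csSup_le_csSup ⟨1, ?_⟩ ⟨_, 0, 0, ⟨by fun_prop, by simp⟩, ⟨by fun_prop, by simp⟩, ?_, ?_,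
      fun _ _ _ => le_rfl, rfl⟩ ?_
    · rintro _ ⟨f, g, -, -, h, -, -, rfl⟩
      have := Real.rpow_le_one (Real.rpow_nonneg (n0 _ _) _) h hp.le
      have := Real.rpow_nonneg (Real.rpow_nonneg (n0 p g) (1 / p)) p
      simp only [nrm] at *; linarith
    rotate_left 2
    · rintro _ ⟨f, g, h1, h2, h3, h4, h5, rfl⟩
      exact ⟨fun z => f z ^ k, fun z => g z ^ k, ⟨h1.1.pow k, e f ▸ h1.2⟩, ⟨h2.1.pow k, e g ▸ h2.2⟩, e3 f h3,
        e3 g h4, fun z a b => by simp only [norm_pow]; gcongr; exact h5 z a b, by rw [e2, e2]⟩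
    all_goals simp [nrm, k0.ne', hp.ne']
  obtain ⟨c, h1, h2⟩ := exists_between (max_lt (kap_lt one_pos) (kap_lt two_pos))
  exact ⟨fun _ => kap_lt, key, 1, 2, c, one_pos, one_lt_two, h1, h2, by simpa using key 1 one_pos 2 one_le_two c⟩

end Pool.Agent.Results.MP_ce4856_an.No
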